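import Mathlib

/-!
# Bipartite coverings of complete graphs: hierarchical coverings
-/

open Finset

namespace Pool.Agent.Results.MP_602efc_co.Hierarchical

/-- The indices `i` such that the edge `uv` lies in the complete bipartite graph `H i` with colour
classes `A i` and `B i`. -/
def sepSet {d n : ℕ} (A B : Fin d → Finset (Fin n)) (u v : Fin n) : Finset (Fin d) :=
  univ.filter (fun i => (u ∈ A i ∧ v ∈ B i) ∨ (v ∈ A i ∧ u ∈ B i))

/-- `H i` is the complete bipartite subgraph of `K_n` with colour classes `A i` and `B i`
(disjoint, possibly empty). The family `H 0, …, H (d-1)` is a bipartite covering of order `k` and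
size `d` of `K_n` if every edge `uv` of `K_n` lies in at least one and at most `k` of the `H i`. -/
structure IsBipartiteCovering (k d n : ℕ) (A B : Fin d → Finset (Fin n)) : Prop where
  disjoint : ∀ i : Fin d, Disjoint (A i) (B i)
  mult : ∀ u v : Fin n, u ≠ v → 1 ≤ #(sepSet A B u v) ∧ #(sepSet A B u v) ≤ k

/-- Hierarchically separated sets of vertices. A one-element set is hierarchically separated. A set
`W` is hierarchically separated if for some set `T` of indices and some partition of `W` into the
fibres of a function `f`, (a) two vertices of `W` in the same fibre are in the same colour classes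
of all the `H i`, `i ∈ T`; (b) two vertices of `W` in different fibres are separated by exactly one
`H i` with `i ∈ T`; (c) every fibre is hierarchically separated. -/
inductive Hier {d n : ℕ} (A B : Fin d → Finset (Fin n)) : Finset (Fin n) → Prop
  | single (v : Fin n) : Hier A B {v}
  | node (W : Finset (Fin n)) (T : Finset (Fin d)) (f : Fin n → ℕ)
      (same : ∀ u ∈ W, ∀ v ∈ W, f u = f v → ∀ i ∈ T, (u ∈ A i ↔ v ∈ A i) ∧ (u ∈ B i ↔ v ∈ B i))
      (sep : ∀ u ∈ W, ∀ v ∈ W, f u ≠ f v → #(sepSet A B u v ∩ T) = 1)
      (parts : ∀ c ∈ W.image f, Hier A B (W.filter (fun v => f v = c))) : Hier A B W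

/-- Graham–Pollak: if the edges of the complete graph on `I` are partitioned into complete
bipartite graphs indexed by `Θ`, then `#I ≤ 1 + #Θ`. -/
lemma graham_pollak {ι τ : Type*} [DecidableEq ι] [DecidableEq τ] (I : Finset ι) (Θ : Finset τ)
    (α β : τ → ι → Prop) [∀ t c, Decidable (α t c)] [∀ t c, Decidable (β t c)]
    (hd : ∀ t ∈ Θ, ∀ c ∈ I, ¬ (α t c ∧ β t c))
    (h1 : ∀ c ∈ I, ∀ c' ∈ I, c ≠ c' →
      #(Θ.filter (fun t => (α t c ∧ β t c') ∨ (α t c' ∧ β t c))) = 1) :
    #I ≤ 1 + #Θ := by
  by_contra hlt
  push Not at hlt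
  let L : (I → ℝ) →ₗ[ℝ] (Option Θ → ℝ) :=
    { toFun := fun z o => match o with
        | none => ∑ c, z c
        | some t => ∑ c : I, if α t.1 c.1 then z c else 0
      map_add' := by
        intro x y
        funext o
        rcases o with _ | t
        · simp [sum_add_distrib]
        · simp only [Pi.add_apply]
          rw [← sum_add_distrib]
          exact sum_congr rfl (fun c _ => by split_ifs <;> simp)
      map_smul' := by
        intro r x
        funext o
        rcases o with _ | t
        · simp [mul_sum]
        · simp only [Pi.smul_apply, smul_eq_mul, RingHom.id_apply, mul_sum]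
          exact sum_congr rfl (fun c _ => by split_ifs <;> simp) }
  have hker : LinearMap.ker L ≠ ⊥ := by
    apply LinearMap.ker_ne_bot_of_finrank_lt
    simp only [Module.finrank_fintype_fun_eq_card, Fintype.card_option, Fintype.card_coe]
    omega
  obtain ⟨z, hz, hz0⟩ := (Submodule.ne_bot_iff _).mp hker
  rw [LinearMap.mem_ker] at hz
  have hs : ∑ c, z c = 0 := congrFun hz none
  have ht : ∀ t : Θ, (∑ c : I, if α t.1 c.1 then z c else 0) = 0 := fun t => congrFun hz (some t)
  have hone : ∀ c c' : I, (1 : ℝ) - ∑ t : Θ, (if α t.1 c.1 ∧ β t.1 c'.1 then (1 : ℝ) else 0)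
      - ∑ t : Θ, (if α t.1 c'.1 ∧ β t.1 c.1 then (1 : ℝ) else 0) = if c = c' then 1 else 0 := by
    intro c c'
    by_cases hcc : c = c'
    · subst hcc
      have h0 : ∀ t : Θ, (if α t.1 c.1 ∧ β t.1 c.1 then (1 : ℝ) else 0) = 0 := fun t => by
        rw [if_neg (hd t.1 t.2 c.1 c.2)]
      simp [h0]
    · have hc := h1 c.1 c.2 c'.1 c'.2 (fun h => hcc (Subtype.ext h))
      have hsum : ∑ t : Θ, (if α t.1 c.1 ∧ β t.1 c'.1 then (1 : ℝ) else 0)
          + ∑ t : Θ, (if α t.1 c'.1 ∧ β t.1 c.1 then (1 : ℝ) else 0) = 1 := by
        rw [← sum_add_distrib]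
        have e1 : ∀ t : Θ, ((if α t.1 c.1 ∧ β t.1 c'.1 then (1 : ℝ) else 0)
            + (if α t.1 c'.1 ∧ β t.1 c.1 then (1 : ℝ) else 0))
            = if (α t.1 c.1 ∧ β t.1 c'.1) ∨ (α t.1 c'.1 ∧ β t.1 c.1) then (1 : ℝ) else 0 := by
          intro t
          have hn : ¬ ((α t.1 c.1 ∧ β t.1 c'.1) ∧ (α t.1 c'.1 ∧ β t.1 c.1)) := fun h =>
            hd t.1 t.2 c.1 c.2 ⟨h.1.1, h.2.2⟩
          by_cases p : α t.1 c.1 ∧ β t.1 c'.1
          · by_cases q : α t.1 c'.1 ∧ β t.1 c.1
            · exact absurd ⟨p, q⟩ hn
            · rw [if_pos p, if_neg q, if_pos (Or.inl p), add_zero]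
          · by_cases q : α t.1 c'.1 ∧ β t.1 c.1
            · rw [if_neg p, if_pos q, if_pos (Or.inr q), zero_add]
            · rw [if_neg p, if_neg q, if_neg (fun h => h.elim p q), add_zero]
        rw [sum_congr rfl (fun t _ => e1 t)]
        rw [show (∑ t : Θ, if (α t.1 c.1 ∧ β t.1 c'.1) ∨ (α t.1 c'.1 ∧ β t.1 c.1)
            then (1 : ℝ) else 0) = ∑ t ∈ Θ, (if (α t c.1 ∧ β t c'.1) ∨ (α t c'.1 ∧ β t c.1)
            then (1 : ℝ) else 0) from (sum_coe_sort Θ (fun t => if (α t c.1 ∧ β t c'.1) ∨
              (α t c'.1 ∧ β t c.1) then (1 : ℝ) else 0))]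
        rw [sum_boole, hc]
        simp
      rw [if_neg hcc]
      linarith
  have key : ∑ c : I, z c ^ 2 = 0 := by
    have e0 : ∑ c : I, z c ^ 2 = ∑ c : I, ∑ c' : I, z c * z c' * (if c = c' then (1 : ℝ) else 0) := by
      apply sum_congr rfl
      intro c _
      simp [pow_two]
    rw [e0]
    have e1 : ∀ c c' : I, z c * z c' * (if c = c' then (1 : ℝ) else 0)
        = z c * z c' - ∑ t : Θ, (if α t.1 c.1 then z c else 0) * (if β t.1 c'.1 then z c' else 0)
          - ∑ t : Θ, (if β t.1 c.1 then z c else 0) * (if α t.1 c'.1 then z c' else 0) := by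
      intro c c'
      rw [← hone c c', mul_sub, mul_sub, mul_one, mul_sum, mul_sum]
      congr 1
      · congr 1
        apply sum_congr rfl
        intro t _
        by_cases p : α t.1 c.1 <;> by_cases q : β t.1 c'.1 <;> simp [p, q]
      · apply sum_congr rfl
        intro t _
        by_cases p : α t.1 c'.1 <;> by_cases q : β t.1 c.1 <;> simp [p, q]
    simp_rw [e1]
    simp only [sum_sub_distrib]
    have f1 : ∑ c : I, ∑ c' : I, z c * z c' = 0 := by
      rw [← sum_mul_sum, hs, zero_mul]
    have f2 : ∑ c : I, ∑ c' : I, ∑ t : Θ,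
        (if α t.1 c.1 then z c else 0) * (if β t.1 c'.1 then z c' else 0) = 0 := by
      have : ∀ c : I, ∑ c' : I, ∑ t : Θ,
          (if α t.1 c.1 then z c else 0) * (if β t.1 c'.1 then z c' else 0)
          = ∑ t : Θ, ∑ c' : I,
            (if α t.1 c.1 then z c else 0) * (if β t.1 c'.1 then z c' else 0) := fun c => sum_comm
      simp_rw [this]
      rw [sum_comm]
      apply sum_eq_zero
      intro t _
      rw [← sum_mul_sum, ht t, zero_mul]
    have f3 : ∑ c : I, ∑ c' : I, ∑ t : Θ,
        (if β t.1 c.1 then z c else 0) * (if α t.1 c'.1 then z c' else 0) = 0 := by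
      have : ∀ c : I, ∑ c' : I, ∑ t : Θ,
          (if β t.1 c.1 then z c else 0) * (if α t.1 c'.1 then z c' else 0)
          = ∑ t : Θ, ∑ c' : I,
            (if β t.1 c.1 then z c else 0) * (if α t.1 c'.1 then z c' else 0) := fun c => sum_comm
      simp_rw [this]
      rw [sum_comm]
      apply sum_eq_zero
      intro t _
      rw [← sum_mul_sum, ht t, mul_zero]
    rw [f1, f2, f3]
    ring
  apply hz0
  funext c
  have := (sum_eq_zero_iff_of_nonneg (fun c _ => sq_nonneg (z c))).mp key c (mem_univ c)
  simpa using this

section Shatter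

variable {d n : ℕ} (A B : Fin d → Finset (Fin n))

open Classical in
/-- The sets of indices all of whose sign patterns occur in `W`. -/
noncomputable def Sh (W : Finset (Fin n)) : Finset (Finset (Fin d)) :=
  univ.filter (fun S => ∀ P ⊆ S, ∃ v ∈ W, (∀ i ∈ P, v ∈ A i) ∧ (∀ i ∈ S \ P, v ∈ B i))

lemma mem_Sh {W : Finset (Fin n)} {S : Finset (Fin d)} :
    S ∈ Sh A B W ↔ ∀ P ⊆ S, ∃ v ∈ W, (∀ i ∈ P, v ∈ A i) ∧ (∀ i ∈ S \ P, v ∈ B i) := by
  simp [Sh]

lemma Sh_mono {W W' : Finset (Fin n)} (h : W ⊆ W') : Sh A B W ⊆ Sh A B W' := by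
  intro S hS
  rw [mem_Sh] at hS ⊢
  intro P hP
  obtain ⟨v, hv, h1, h2⟩ := hS P hP
  exact ⟨v, h hv, h1, h2⟩

open Classical in
/-- The counting step. -/
lemma card_le_Sh (hdis : ∀ i, Disjoint (A i) (B i)) {W : Finset (Fin n)} (h : Hier A B W) :
    #W ≤ #(Sh A B W) := by
  induction h with
  | single v =>
    rw [card_singleton]
    apply card_pos.mpr
    refine ⟨∅, ?_⟩
    rw [mem_Sh]
    intro P hP
    rw [subset_empty] at hP
    subst hP
    exact ⟨v, mem_singleton_self v, by simp, by simp⟩
  | node W T f same sep parts ih =>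
    set C := W.image f with hC
    let Wc : ℕ → Finset (Fin n) := fun c => W.filter (fun v => f v = c)
    have hW : #W = ∑ c ∈ C, #(Wc c) := card_eq_sum_card_image f W
    have h1 : #W ≤ ∑ c ∈ C, #(Sh A B (Wc c)) := by
      rw [hW]
      exact sum_le_sum (fun c hc => ih c hc)
    have h2 : ∑ c ∈ C, #(Sh A B (Wc c))
        = ∑ S : Finset (Fin d), #(C.filter (fun c => S ∈ Sh A B (Wc c))) := by
      have : ∀ c ∈ C, #(Sh A B (Wc c)) = ∑ S : Finset (Fin d), if S ∈ Sh A B (Wc c) then 1 else 0 := by
        intro c _
        rw [← sum_filter, filter_mem_eq_inter, univ_inter, card_eq_sum_ones]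
      rw [sum_congr rfl this, sum_comm]
      apply sum_congr rfl
      intro S _
      rw [card_filter]
    have h3 : ∀ S : Finset (Fin d), #(C.filter (fun c => S ∈ Sh A B (Wc c)))
        ≤ #((Sh A B W).filter (fun R => R \ T = S)) := by
      intro S
      set I := C.filter (fun c => S ∈ Sh A B (Wc c)) with hI
      by_cases hne : I = ∅
      · rw [hne]
        simp
      · have hne' : I.Nonempty := nonempty_iff_ne_empty.mpr hne
        have hmemI : ∀ c ∈ I, c ∈ C ∧ S ∈ Sh A B (Wc c) := fun c hc => by
          rw [hI, mem_filter] at hc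
          exact hc
        -- S avoids T
        have hST : Disjoint S T := by
          obtain ⟨c, hc⟩ := hne'
          have hSc := (mem_Sh A B).mp (hmemI c hc).2
          rw [disjoint_left]
          intro i hiS hiT
          obtain ⟨v, hv, hvA, -⟩ := hSc S (Subset.refl S)
          obtain ⟨w, hw, -, hwB⟩ := hSc ∅ (empty_subset S)
          have hvA := hvA i hiS
          have hwB := hwB i (by simpa using hiS)
          have hv' := mem_filter.mp hv
          have hw' := mem_filter.mp hw
          have hst := same v hv'.1 w hw'.1 (by rw [hv'.2, hw'.2]) i hiT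
          exact disjoint_left.mp (hdis i) (hst.1.mp hvA) hwB
        -- the sets `α t`, `β t` of colours
        let α : Fin d → ℕ → Prop := fun t c => ∃ u ∈ W, f u = c ∧ u ∈ A t
        let β : Fin d → ℕ → Prop := fun t c => ∃ u ∈ W, f u = c ∧ u ∈ B t
        let Θ : Finset (Fin d) := T.filter (fun t => (∃ c ∈ I, α t c) ∧ (∃ c ∈ I, β t c))
        have hGP : #I ≤ 1 + #Θ := by
          apply graham_pollak I Θ α β
          · rintro t ht c hc ⟨⟨u, hu, huc, huA⟩, ⟨v, hv, hvc, hvB⟩⟩
            have hst := same u hu v hv (by rw [huc, hvc]) t (mem_filter.mp ht).1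
            exact disjoint_left.mp (hdis t) (hst.1.mp huA) hvB
          · intro c hc c' hc' hcc
            obtain ⟨u, hu, huc⟩ := mem_image.mp (hmemI c hc).1
            obtain ⟨v, hv, hvc⟩ := mem_image.mp (hmemI c' hc').1
            have hs := sep u hu v hv (by rw [huc, hvc]; exact hcc)
            rw [← hs]
            congr 1
            ext t
            simp only [mem_filter, mem_inter, sepSet, mem_univ, true_and, Θ]
            constructor
            · rintro ⟨⟨htT, -⟩, h⟩
              refine ⟨?_, htT⟩
              rcases h with ⟨⟨a, ha, hac, haA⟩, ⟨b, hb, hbc, hbB⟩⟩ |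
                ⟨⟨a, ha, hac, haA⟩, ⟨b, hb, hbc, hbB⟩⟩
              · left
                exact ⟨(same u hu a ha (by rw [huc, hac]) t htT).1.mpr haA,
                  (same v hv b hb (by rw [hvc, hbc]) t htT).2.mpr hbB⟩
              · right
                exact ⟨(same v hv a ha (by rw [hvc, hac]) t htT).1.mpr haA,
                  (same u hu b hb (by rw [huc, hbc]) t htT).2.mpr hbB⟩
            · rintro ⟨h, htT⟩
              rcases h with ⟨h1, h2⟩ | ⟨h1, h2⟩
              · exact ⟨⟨htT, ⟨c, hc, u, hu, huc, h1⟩, ⟨c', hc', v, hv, hvc, h2⟩⟩,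
                  Or.inl ⟨⟨u, hu, huc, h1⟩, ⟨v, hv, hvc, h2⟩⟩⟩
              · exact ⟨⟨htT, ⟨c', hc', v, hv, hvc, h1⟩, ⟨c, hc, u, hu, huc, h2⟩⟩,
                  Or.inr ⟨⟨v, hv, hvc, h1⟩, ⟨u, hu, huc, h2⟩⟩⟩
        have hsub : insert S (Θ.image (fun t => insert t S))
            ⊆ (Sh A B W).filter (fun R => R \ T = S) := by
          intro R hR
          rw [mem_insert, mem_image] at hR
          rw [mem_filter]
          rcases hR with rfl | ⟨t, ht, rfl⟩
          · obtain ⟨c, hc⟩ := hne'
            refine ⟨Sh_mono A B (filter_subset _ _) (hmemI c hc).2, ?_⟩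
            exact sdiff_eq_self_of_disjoint hST
          · have ht' := mem_filter.mp ht
            obtain ⟨htT, ⟨c, hc, u, hu, huc, huA⟩, ⟨c', hc', v, hv, hvc, hvB⟩⟩ := ht'
            refine ⟨?_, ?_⟩
            · rw [mem_Sh]
              intro P hP
              by_cases htP : t ∈ P
              · have hP' : P.erase t ⊆ S := by
                  intro i hi
                  have := hP (mem_of_mem_erase hi)
                  rw [mem_insert] at this
                  exact this.resolve_left (ne_of_mem_erase hi)
                obtain ⟨x, hx, hxA, hxB⟩ := (mem_Sh A B).mp (hmemI c hc).2 (P.erase t) hP'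
                have hx' := mem_filter.mp hx
                refine ⟨x, hx'.1, ?_, ?_⟩
                · intro i hi
                  by_cases hit : i = t
                  · subst hit
                    exact (same x hx'.1 u hu (by rw [hx'.2, huc]) i htT).1.mpr huA
                  · exact hxA i (mem_erase.mpr ⟨hit, hi⟩)
                · intro i hi
                  rw [mem_sdiff, mem_insert] at hi
                  have hit : i ≠ t := fun h => hi.2 (h ▸ htP)
                  apply hxB i
                  rw [mem_sdiff]
                  exact ⟨hi.1.resolve_left hit, fun h => hi.2 (mem_of_mem_erase h)⟩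
              · have hP' : P ⊆ S := by
                  intro i hi
                  have := hP hi
                  rw [mem_insert] at this
                  exact this.resolve_left (fun h => htP (h ▸ hi))
                obtain ⟨x, hx, hxA, hxB⟩ := (mem_Sh A B).mp (hmemI c' hc').2 P hP'
                have hx' := mem_filter.mp hx
                refine ⟨x, hx'.1, hxA, ?_⟩
                intro i hi
                rw [mem_sdiff, mem_insert] at hi
                by_cases hit : i = t
                · subst hit
                  exact (same x hx'.1 v hv (by rw [hx'.2, hvc]) i htT).2.mpr hvB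
                · exact hxB i (mem_sdiff.mpr ⟨hi.1.resolve_left hit, hi.2⟩)
            · rw [insert_sdiff_of_mem S htT]
              exact sdiff_eq_self_of_disjoint hST
        have hcard : #(insert S (Θ.image (fun t => insert t S))) = 1 + #Θ := by
          have hΘS : ∀ t ∈ Θ, t ∉ S := fun t ht htS =>
            disjoint_left.mp hST htS (mem_filter.mp ht).1
          rw [card_insert_of_notMem, card_image_of_injOn, add_comm]
          · intro t ht t' ht' htt
            have htt' : insert t S = insert t' S := htt
            have h4 : t ∈ insert t' S := by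
              rw [← htt']
              exact mem_insert_self t S
            rw [mem_insert] at h4
            exact h4.resolve_right (hΘS t ht)
          · intro hmem
            obtain ⟨t, ht, hts⟩ := mem_image.mp hmem
            apply hΘS t ht
            rw [← hts]
            exact mem_insert_self t S
        calc #I ≤ 1 + #Θ := hGP
          _ = #(insert S (Θ.image (fun t => insert t S))) := hcard.symm
          _ ≤ _ := card_le_card hsub
    have h4 : ∑ S : Finset (Fin d), #((Sh A B W).filter (fun R => R \ T = S)) = #(Sh A B W) := by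
      rw [card_eq_sum_card_fiberwise (f := fun R => R \ T) (t := univ)]
      exact fun _ _ => mem_univ _
    calc #W ≤ ∑ c ∈ C, #(Sh A B (Wc c)) := h1
      _ = ∑ S : Finset (Fin d), #(C.filter (fun c => S ∈ Sh A B (Wc c))) := h2
      _ ≤ ∑ S : Finset (Fin d), #((Sh A B W).filter (fun R => R \ T = S)) :=
          sum_le_sum (fun S _ => h3 S)
      _ = #(Sh A B W) := h4

end Shatter

/-- The sets `S` of indices such that two vertices are separated by all the `H i`, `i ∈ S`
(the empty set is one of them as soon as there is a vertex). -/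
def common {d n : ℕ} (A B : Fin d → Finset (Fin n)) : Finset (Finset (Fin d)) :=
  univ.filter (fun S => ∃ u v : Fin n, S ⊆ sepSet A B u v)

/-- For a hierarchical bipartite covering of order `k` and size `d` of `K_n`, the number `n` is at
most the number of sets `S` of indices with a pair of vertices separated by all `H i`, `i ∈ S`, and
that number is at most `∑_{i ≤ k} C(d, i)`. -/
theorem result (k d n : ℕ) (A B : Fin d → Finset (Fin n)) (h : IsBipartiteCovering k d n A B)
    (hH : Hier A B univ) :
    n ≤ #(common A B) ∧ #(common A B) ≤ ∑ i ∈ range (k + 1), d.choose i := by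
  classical
  constructor
  · have h1 := card_le_Sh A B h.disjoint hH
    rw [card_univ, Fintype.card_fin] at h1
    refine h1.trans (card_le_card ?_)
    intro S hS
    rw [common, mem_filter]
    refine ⟨mem_univ S, ?_⟩
    rw [mem_Sh] at hS
    obtain ⟨u, -, huA, -⟩ := hS S (Subset.refl S)
    obtain ⟨v, -, -, hvB⟩ := hS ∅ (empty_subset S)
    refine ⟨u, v, ?_⟩
    intro j hj
    rw [sepSet, mem_filter]
    exact ⟨mem_univ j, Or.inl ⟨huA j hj, hvB j (by simpa using hj)⟩⟩
  · have h2 : common A B ⊆ univ.filter (fun S : Finset (Fin d) => #S ≤ k) := by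
      intro S hS
      rw [mem_filter]
      refine ⟨mem_univ S, ?_⟩
      rw [common, mem_filter] at hS
      obtain ⟨-, u, v, huv⟩ := hS
      by_cases he : u = v
      · subst he
        have hemp : sepSet A B u u = ∅ := by
          rw [sepSet, filter_eq_empty_iff]
          rintro i - (hi | hi)
          · exact disjoint_left.mp (h.disjoint i) hi.1 hi.2
          · exact disjoint_left.mp (h.disjoint i) hi.1 hi.2
        rw [hemp] at huv
        rw [subset_empty.mp huv, card_empty]
        exact Nat.zero_le k
      · exact (card_le_card huv).trans (h.mult u v he).2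
    refine (card_le_card h2).trans ?_
    rw [card_eq_sum_card_fiberwise (f := fun S : Finset (Fin d) => #S) (t := range (k + 1))]
    · apply le_of_eq
      apply sum_congr rfl
      intro i hi
      have hset : (univ.filter (fun S : Finset (Fin d) => #S ≤ k)).filter (fun S => #S = i)
          = powersetCard i (univ : Finset (Fin d)) := by
        ext S
        simp only [mem_filter, mem_univ, true_and, mem_powersetCard, subset_univ]
        constructor
        · exact fun h => h.2
        · intro h
          exact ⟨by rw [h]; exact Nat.lt_succ_iff.mp (mem_range.mp hi), h⟩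
      rw [hset, card_powersetCard, card_univ, Fintype.card_fin]
    · intro S hS
      have := (mem_filter.mp hS).2
      simp only [coe_range, Set.mem_Iio]
      omega

end Pool.Agent.Results.MP_602efc_co.Hierarchical
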