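import Mathlib

/-!
# Bipartite coverings of order two that tile the cube
-/

open Finset

namespace Pool.Agent.Results.MP_602efc_co.Tilings

/-- The indices `i` such that the edge `uv` lies in the complete bipartite graph `H i` with colour
classes `A i` and `B i`. -/
def sepSet {d n : ℕ} (A B : Fin d → Finset (Fin n)) (u v : Fin n) : Finset (Fin d) :=
  univ.filter (fun i => (u ∈ A i ∧ v ∈ B i) ∨ (v ∈ A i ∧ u ∈ B i))

/-- `H i` is the complete bipartite subgraph of `K_n` with colour classes `A i` and `B i`
(disjoint, possibly empty). The family `H 0, …, H (d-1)` is a bipartite covering of order `k` and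
size `d` of `K_n` if every edge `uv` of `K_n` lies in at least one and at most `k` of the `H i`. -/
structure IsBipartiteCovering (k d n : ℕ) (A B : Fin d → Finset (Fin n)) : Prop where
  disjoint : ∀ i : Fin d, Disjoint (A i) (B i)
  mult : ∀ u v : Fin n, u ≠ v → 1 ≤ #(sepSet A B u v) ∧ #(sepSet A B u v) ≤ k

/-- Total sets of vertices: sets with at most one vertex, and sets `W` such that for some index `i`
every vertex of `W` lies in `A i` or in `B i`, and both `W ∩ A i` and `W ∩ B i` are total. -/
inductive Total {d n : ℕ} (A B : Fin d → Finset (Fin n)) : Finset (Fin n) → Prop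
  | small (W : Finset (Fin n)) (h : #W ≤ 1) : Total A B W
  | node (W : Finset (Fin n)) (i : Fin d) (hi : W ⊆ A i ∪ B i)
      (hA : Total A B (W ∩ A i)) (hB : Total A B (W ∩ B i)) : Total A B W

/-- A word over `0, 1, *`. -/
abbrev Word (d : ℕ) := Fin d → Option Bool

variable {d : ℕ}

/-- `u` and `v` conflict at `i`: both have a letter there and the letters differ. -/
def Cf (u v : Word d) (i : Fin d) : Prop := ∃ b : Bool, u i = some b ∧ v i = some (!b)

instance (u v : Word d) (i : Fin d) : Decidable (Cf u v i) := by unfold Cf; infer_instance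

/-- The conflict set. -/
def cs (u v : Word d) : Finset (Fin d) := univ.filter (Cf u v)

/-- The point `x` of the cube lies in the subcube of `v`. -/
def In (x : Fin d → Bool) (v : Word d) : Prop := ∀ i, ∀ b, v i = some b → x i = b

instance (x : Fin d → Bool) (v : Word d) : Decidable (In x v) := by unfold In; infer_instance

/-- Two-neighborly tilings. -/
structure Til (F : Finset (Word d)) : Prop where
  cov : ∀ x : Fin d → Bool, ∃ v ∈ F, In x v
  conf : ∀ u ∈ F, ∀ v ∈ F, u ≠ v → 1 ≤ #(cs u v) ∧ #(cs u v) ≤ 2

/-- Total laminations (binary trees of words). -/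
inductive Lam : Finset (Word d) → Prop
  | small (F : Finset (Word d)) (h : #F ≤ 1) : Lam F
  | node (F : Finset (Word d)) (i : Fin d) (hi : ∀ v ∈ F, v i ≠ none)
      (h0 : Lam (F.filter (fun v => v i = some false)))
      (h1 : Lam (F.filter (fun v => v i = some true))) : Lam F

lemma mem_cs {u v : Word d} {i : Fin d} : i ∈ cs u v ↔ Cf u v i := by simp [cs]

lemma cf_symm {u v : Word d} {i : Fin d} (h : Cf u v i) : Cf v u i := by
  obtain ⟨b, h1, h2⟩ := h
  exact ⟨!b, h2, by simpa using h1⟩

lemma cs_comm (u v : Word d) : cs u v = cs v u := by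
  ext i
  rw [mem_cs, mem_cs]
  exact ⟨cf_symm, cf_symm⟩

/-- The support. -/
def sp (v : Word d) : Finset (Fin d) := univ.filter (fun i => v i ≠ none)

lemma mem_sp {v : Word d} {i : Fin d} : i ∈ sp v ↔ v i ≠ none := by simp [sp]

/-- The sign of a letter. -/
def sg (b : Bool) : ℤ := if b then -1 else 1

lemma sg_ne (b : Bool) : sg b ≠ 0 := by cases b <;> simp [sg]

/-- The local factor. -/
def gl (S : Finset (Fin d)) (v : Word d) (i : Fin d) (c : Bool) : ℤ :=
  (if ∀ b, v i = some b → c = b then 1 else 0) * (if i ∈ S then sg c else 1)

lemma sum_gl_none {S : Finset (Fin d)} {v : Word d} {i : Fin d} (hi : i ∈ S) (h : v i = none) :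
    ∑ c : Bool, gl S v i c = 0 := by
  simp [gl, h, hi, sg]

lemma sum_gl_some {S : Finset (Fin d)} {v : Word d} {i : Fin d} (hi : i ∈ S) {b : Bool}
    (h : v i = some b) : ∑ c : Bool, gl S v i c = sg b := by
  cases b <;> simp [gl, h, hi, sg]

lemma sum_gl_out {S : Finset (Fin d)} {v : Word d} {i : Fin d} (hi : i ∉ S) (h : v i = none) :
    ∑ c : Bool, gl S v i c = 2 := by
  simp [gl, h, hi]

/-- The character sum over the subcube of `v`. -/
def csum (S : Finset (Fin d)) (v : Word d) : ℤ := ∏ i, ∑ c : Bool, gl S v i c

lemma csum_eq (S : Finset (Fin d)) (v : Word d) :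
    csum S v = ∑ x : Fin d → Bool, (if In x v then 1 else 0) * ∏ i ∈ S, sg (x i) := by
  unfold csum
  rw [Finset.prod_univ_sum]
  rw [Fintype.piFinset_univ]
  apply sum_congr rfl
  intro x _
  unfold gl
  rw [prod_mul_distrib]
  congr 1
  · by_cases h : In x v
    · rw [if_pos h]
      apply prod_eq_one
      intro i _
      rw [if_pos (h i)]
    · rw [if_neg h]
      unfold In at h
      push Not at h
      obtain ⟨i, b, hb, hne⟩ := h
      apply prod_eq_zero (mem_univ i)
      rw [if_neg]
      intro h'
      exact hne (h' b hb)
  · rw [prod_ite_mem]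
    simp

lemma uniq {F : Finset (Word d)} (h : Til F) (x : Fin d → Bool) {u v : Word d} (hu : u ∈ F)
    (hv : v ∈ F) (hxu : In x u) (hxv : In x v) : u = v := by
  by_contra hne
  have h1 := (h.conf u hu v hv hne).1
  obtain ⟨i, hi⟩ := card_pos.mp h1
  rw [mem_cs] at hi
  obtain ⟨b, h2, h3⟩ := hi
  have e1 := hxu i b h2
  have e2 := hxv i (!b) h3
  rw [e1] at e2
  cases b <;> simp at e2

lemma sum_csum {F : Finset (Word d)} (h : Til F) {S : Finset (Fin d)} (hS : S.Nonempty) :
    ∑ v ∈ F, csum S v = 0 := by
  have e1 : ∑ v ∈ F, csum S v = ∑ x : Fin d → Bool, ∏ i ∈ S, sg (x i) := by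
    rw [sum_congr rfl (fun v _ => csum_eq S v), sum_comm]
    apply sum_congr rfl
    intro x _
    rw [← sum_mul]
    obtain ⟨v, hv, hx⟩ := h.cov x
    have : ∑ u ∈ F, (if In x u then (1 : ℤ) else 0) = 1 := by
      rw [sum_eq_single_of_mem v hv]
      · rw [if_pos hx]
      · intro u hu hne
        rw [if_neg]
        intro hxu
        exact hne (uniq h x hu hv hxu hx)
    rw [this, one_mul]
  rw [e1]
  have e2 : ∑ x : Fin d → Bool, ∏ i ∈ S, sg (x i) = csum S (fun _ => none) := by
    rw [csum_eq]
    apply sum_congr rfl
    intro x _
    rw [if_pos, one_mul]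
    intro i b hb
    simp at hb
  rw [e2]
  obtain ⟨i, hi⟩ := hS
  unfold csum
  exact prod_eq_zero (mem_univ i) (sum_gl_none hi rfl)

/-- Two words of a tiling with the same support and a single conflict. -/
lemma exists_pair {F : Finset (Word d)} (h : Til F) (h2 : 2 ≤ #F) :
    ∃ u ∈ F, ∃ v ∈ F, sp u = sp v ∧ #(cs u v) = 1 := by
  obtain ⟨u, hu, hmax⟩ := exists_max_image F (fun v => #(sp v)) (card_pos.mp (by omega))
  have hS : (sp u).Nonempty := by
    obtain ⟨v, hv, hne⟩ := exists_mem_ne (by omega : 1 < #F) u
    have h1 := (h.conf u hu v hv (Ne.symm hne)).1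
    obtain ⟨i, hi⟩ := card_pos.mp h1
    rw [mem_cs] at hi
    obtain ⟨b, h2, _⟩ := hi
    exact ⟨i, by rw [mem_sp, h2]; simp⟩
  have hz := sum_csum h hS
  set S := sp u with hSdef
  have hsup : ∀ v ∈ F, sp v ≠ S → csum S v = 0 := by
    intro v hv hne
    have : ¬ S ⊆ sp v := by
      intro hsub
      exact hne (eq_of_subset_of_card_le hsub (hmax v hv)).symm
    obtain ⟨i, hiS, hi⟩ := not_subset.mp this
    unfold csum
    apply prod_eq_zero (mem_univ i)
    apply sum_gl_none hiS
    by_contra hc
    exact hi (mem_sp.mpr hc)
  -- the value for words of support `S`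
  let σ : Word d → ℤ := fun v => ∏ i ∈ S, sg ((v i).getD false)
  have hval : ∀ v : Word d, sp v = S → csum S v = 2 ^ (#(univ \ S)) * σ v := by
    intro v hv
    unfold csum
    rw [← prod_sdiff (subset_univ S)]
    congr 1
    · rw [prod_congr rfl (g := fun _ => (2 : ℤ)), prod_const]
      intro i hi
      have hi' : i ∉ S := (mem_sdiff.mp hi).2
      apply sum_gl_out hi'
      by_contra hc
      rw [← hv] at hi'
      exact hi' (mem_sp.mpr hc)
    · apply prod_congr rfl
      intro i hi
      have hi2 : v i ≠ none := by rw [← hv] at hi; exact mem_sp.mp hi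
      obtain ⟨b, hb⟩ := Option.ne_none_iff_exists'.mp hi2
      rw [sum_gl_some hi hb, hb]
      rfl
  have hσ : ∀ v, σ v = 1 ∨ σ v = -1 := by
    intro v
    have : σ v * σ v = 1 := by
      show (∏ i ∈ S, sg ((v i).getD false)) * (∏ i ∈ S, sg ((v i).getD false)) = 1
      rw [← prod_mul_distrib]
      apply prod_eq_one
      intro i _
      cases (v i).getD false <;> simp [sg]
    exact mul_self_eq_one_iff.mp this
  have hz2 : ∑ v ∈ F.filter (fun v => sp v = S), σ v = 0 := by
    have e : ∑ v ∈ F, csum S v = ∑ v ∈ F.filter (fun v => sp v = S), 2 ^ (#(univ \ S)) * σ v := by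
      rw [sum_filter]
      apply sum_congr rfl
      intro v hv
      by_cases hc : sp v = S
      · rw [if_pos hc, hval v hc]
      · rw [if_neg hc, hsup v hv hc]
    rw [e, ← mul_sum] at hz
    rcases mul_eq_zero.mp hz with h0 | h0
    · exact absurd h0 (by positivity)
    · exact h0
  -- a word of the opposite sign
  have hex : ∃ v ∈ F.filter (fun v => sp v = S), σ v = - σ u := by
    by_contra hno
    push Not at hno
    have hall : ∀ v ∈ F.filter (fun v => sp v = S), σ v = σ u := by
      intro v hv
      rcases hσ v with h1 | h1 <;> rcases hσ u with h2 | h2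
      · rw [h1, h2]
      · exact absurd (by rw [h1, h2]; norm_num) (hno v hv)
      · exact absurd (by rw [h1, h2]) (hno v hv)
      · rw [h1, h2]
    rw [sum_congr rfl hall, sum_const, nsmul_eq_mul] at hz2
    have hmem : u ∈ F.filter (fun v => sp v = S) := mem_filter.mpr ⟨hu, rfl⟩
    have hpos : 0 < #(F.filter (fun v => sp v = S)) := card_pos.mpr ⟨u, hmem⟩
    rcases mul_eq_zero.mp hz2 with h0 | h0
    · have : (#(F.filter (fun v => sp v = S)) : ℤ) ≠ 0 := by positivity
      exact this h0
    · rcases hσ u with h1 | h1 <;> rw [h1] at h0 <;> norm_num at h0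
  obtain ⟨v, hv, hsv⟩ := hex
  obtain ⟨hvF, hvS⟩ := mem_filter.mp hv
  have hne : u ≠ v := by
    intro he
    rw [he] at hsv
    rcases hσ v with h1 | h1 <;> rw [h1] at hsv <;> norm_num at hsv
  refine ⟨u, hu, v, hvF, hvS.symm, ?_⟩
  -- parity of the conflict set
  have hprod : σ u * σ v = (-1) ^ #(cs u v) := by
    show (∏ i ∈ S, sg ((u i).getD false)) * (∏ i ∈ S, sg ((v i).getD false)) = _
    rw [← prod_mul_distrib]
    have hsub : cs u v ⊆ S := by
      intro i hi
      rw [mem_cs] at hi
      obtain ⟨b, h1, _⟩ := hi
      rw [hSdef, mem_sp, h1]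
      simp
    rw [← prod_sdiff hsub, prod_eq_one, one_mul, prod_congr rfl (g := fun _ => (-1 : ℤ)),
      prod_const]
    · intro i hi
      rw [mem_cs] at hi
      obtain ⟨b, h1, h2⟩ := hi
      rw [h1, h2]
      cases b <;> simp [sg]
    · intro i hi
      obtain ⟨hiS, hic⟩ := mem_sdiff.mp hi
      have hiu : u i ≠ none := mem_sp.mp hiS
      have hiv : v i ≠ none := by rw [← hvS] at hiS; exact mem_sp.mp hiS
      obtain ⟨b, hb⟩ := Option.ne_none_iff_exists'.mp hiu
      obtain ⟨c, hc⟩ := Option.ne_none_iff_exists'.mp hiv
      have hbc : b = c := by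
        by_contra hbc
        apply hic
        rw [mem_cs]
        refine ⟨b, hb, ?_⟩
        rw [hc]
        cases b <;> cases c <;> simp_all
      rw [hb, hc, hbc]
      cases c <;> simp [sg]
  have hcon := h.conf u hu v hvF hne
  have hlt : #(cs u v) = 1 ∨ #(cs u v) = 2 := by omega
  rcases hlt with h1 | h1
  · exact h1
  · exfalso
    rw [h1, hsv] at hprod
    rcases hσ u with h2 | h2 <;> rw [h2] at hprod <;> norm_num at hprod

/-- Splitting a word of a lamination gives a lamination. -/
lemma lam_split {F' : Finset (Word d)} (hL : Lam F') : ∀ (w : Word d) (j : Fin d), w ∈ F' →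
    w j = none → Lam (insert (Function.update w j (some false))
      (insert (Function.update w j (some true)) (F'.erase w))) := by
  induction hL with
  | small F h =>
    intro w j hw hj
    have hF : F.erase w = ∅ := by
      rw [← card_eq_zero, card_erase_of_mem hw]
      omega
    rw [hF]
    refine Lam.node _ j ?_ ?_ ?_
    · intro v hv
      simp only [insert_empty_eq, mem_insert, mem_singleton] at hv
      rcases hv with rfl | rfl <;> simp
    · apply Lam.small
      rw [card_le_one]
      intro a ha b hb
      simp only [insert_empty_eq, mem_filter, mem_insert, mem_singleton] at ha hb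
      rcases ha with ⟨rfl | rfl, h1⟩
      · rcases hb with ⟨rfl | rfl, h2⟩
        · rfl
        · simp at h2
      · simp at h1
    · apply Lam.small
      rw [card_le_one]
      intro a ha b hb
      simp only [insert_empty_eq, mem_filter, mem_insert, mem_singleton] at ha hb
      rcases ha with ⟨rfl | rfl, h1⟩
      · simp at h1
      · rcases hb with ⟨rfl | rfl, h2⟩
        · simp at h2
        · rfl
  | node F i hi h0 h1 ih0 ih1 =>
    intro w j hw hj
    have hij : i ≠ j := by
      intro he
      rw [he] at hi
      exact hi w hw hj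
    have hup : ∀ b : Bool, Function.update w j (some b) i = w i := fun b =>
      Function.update_of_ne hij _ _
    have key : ∀ c : Bool, w i = some c →
        (insert (Function.update w j (some false)) (insert (Function.update w j (some true))
          (F.erase w))).filter (fun v => v i = some c)
        = insert (Function.update w j (some false)) (insert (Function.update w j (some true))
          ((F.filter (fun v => v i = some c)).erase w)) := by
      intro c hc
      ext v
      simp only [mem_filter, mem_insert, mem_erase]
      constructor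
      · rintro ⟨rfl | rfl | ⟨h3, h4⟩, h5⟩
        · exact Or.inl rfl
        · exact Or.inr (Or.inl rfl)
        · exact Or.inr (Or.inr ⟨h3, h4, h5⟩)
      · rintro (rfl | rfl | ⟨h3, h4, h5⟩)
        · exact ⟨Or.inl rfl, by rw [hup, hc]⟩
        · exact ⟨Or.inr (Or.inl rfl), by rw [hup, hc]⟩
        · exact ⟨Or.inr (Or.inr ⟨h3, h4⟩), h5⟩
    have key2 : ∀ c : Bool, w i ≠ some c →
        (insert (Function.update w j (some false)) (insert (Function.update w j (some true))
          (F.erase w))).filter (fun v => v i = some c)
        = F.filter (fun v => v i = some c) := by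
      intro c hc
      ext v
      simp only [mem_filter, mem_insert, mem_erase]
      constructor
      · rintro ⟨rfl | rfl | ⟨h3, h4⟩, h5⟩
        · rw [hup] at h5
          exact absurd h5 hc
        · rw [hup] at h5
          exact absurd h5 hc
        · exact ⟨h4, h5⟩
      · rintro ⟨h4, h5⟩
        refine ⟨Or.inr (Or.inr ⟨?_, h4⟩), h5⟩
        rintro rfl
        exact hc h5
    have hwi : w i = some false ∨ w i = some true := by
      obtain ⟨b, hb⟩ := Option.ne_none_iff_exists'.mp (hi w hw)
      cases b
      · exact Or.inl hb
      · exact Or.inr hb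
    refine Lam.node _ i ?_ ?_ ?_
    · intro v hv
      simp only [mem_insert, mem_erase] at hv
      rcases hv with rfl | rfl | ⟨_, h4⟩
      · rw [hup]
        exact hi w hw
      · rw [hup]
        exact hi w hw
      · exact hi v h4
    · rcases hwi with hc | hc
      · rw [key false hc]
        exact ih0 w j (mem_filter.mpr ⟨hw, hc⟩) hj
      · rw [key2 false (by rw [hc]; simp)]
        exact h0
    · rcases hwi with hc | hc
      · rw [key2 true (by rw [hc]; simp)]
        exact h1
      · rw [key true hc]
        exact ih1 w j (mem_filter.mpr ⟨hw, hc⟩) hj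

/-- Every two-neighborly tiling is a total lamination. -/
theorem til_lam : ∀ (m : ℕ) (F : Finset (Word d)), #F = m → Til F → Lam F := by
  intro m
  induction m with
  | zero =>
    intro F hF _
    exact Lam.small F (by omega)
  | succ m ih =>
    intro F hF hT
    by_cases h2 : 2 ≤ #F
    · obtain ⟨u, hu, v, hv, hsp, hc⟩ := exists_pair hT h2
      obtain ⟨j, hj⟩ := card_eq_one.mp hc
      have hjc : Cf u v j := by rw [← mem_cs, hj]; simp
      obtain ⟨b, hub, hvb⟩ := hjc
      have hne : u ≠ v := by
        rintro rfl
        rw [hub] at hvb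
        cases b <;> simp at hvb
      set w : Word d := Function.update u j none with hw
      -- outside `j` the two words agree
      have hag : ∀ i, i ≠ j → u i = v i := by
        intro i hij
        by_contra hc2
        have hnc : i ∉ cs u v := by rw [hj]; simpa using hij
        rcases hui : u i with _ | a
        · have hi1 : i ∉ sp u := by rw [mem_sp]; simp [hui]
          rw [hsp, mem_sp] at hi1
          push Not at hi1
          rw [hui, hi1] at hc2
          exact hc2 rfl
        · have hi1 : i ∈ sp u := by rw [mem_sp]; simp [hui]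
          rw [hsp, mem_sp] at hi1
          obtain ⟨e, he⟩ := Option.ne_none_iff_exists'.mp hi1
          apply hnc
          rw [mem_cs]
          refine ⟨a, hui, ?_⟩
          rw [hui, he] at hc2
          rw [he]
          cases a <;> cases e <;> simp_all
      have hw0 : w j = none := by rw [hw]; simp
      have hwi : ∀ i, i ≠ j → w i = u i := fun i hi => by rw [hw]; exact Function.update_of_ne hi _ _
      have hu' : Function.update w j (some b) = u := by
        funext i
        by_cases hi : i = j
        · rw [hi, Function.update_self, hub]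
        · rw [Function.update_of_ne hi, hwi i hi]
      have hv' : Function.update w j (some (!b)) = v := by
        funext i
        by_cases hi : i = j
        · rw [hi, Function.update_self, hvb]
        · rw [Function.update_of_ne hi, hwi i hi, hag i hi]
      have hcw : ∀ t : Word d, ∀ i, i ∈ cs w t ↔ i ≠ j ∧ i ∈ cs u t := by
        intro t i
        rw [mem_cs, mem_cs]
        constructor
        · rintro ⟨e, h3, h4⟩
          have hij : i ≠ j := by
            rintro rfl
            rw [hw0] at h3
            simp at h3
          exact ⟨hij, e, by rw [← hwi i hij]; exact h3, h4⟩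
        · rintro ⟨hij, e, h3, h4⟩
          exact ⟨e, by rw [hwi i hij]; exact h3, h4⟩
      have hcvt : ∀ t : Word d, ∀ i, i ≠ j → (i ∈ cs v t ↔ i ∈ cs u t) := by
        intro t i hij
        rw [mem_cs, mem_cs]
        unfold Cf
        rw [hag i hij]
      have hcon : ∀ t ∈ F, t ≠ u → t ≠ v → 1 ≤ #(cs w t) ∧ #(cs w t) ≤ 2 := by
        intro t ht htu htv
        have hsub : cs w t ⊆ cs u t := fun i hi => ((hcw t i).mp hi).2
        refine ⟨?_, (card_le_card hsub).trans (hT.conf u hu t ht (Ne.symm htu)).2⟩
        by_contra hz
        have hz' : cs w t = ∅ := by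
          rw [← card_eq_zero]
          omega
        obtain ⟨i, hi⟩ := card_pos.mp (hT.conf u hu t ht (Ne.symm htu)).1
        obtain ⟨k, hk⟩ := card_pos.mp (hT.conf v hv t ht (Ne.symm htv)).1
        have hij : i = j := by
          by_contra hij
          have : i ∈ cs w t := (hcw t i).mpr ⟨hij, hi⟩
          rw [hz'] at this
          simp at this
        have hkj : k = j := by
          by_contra hkj
          have : k ∈ cs w t := (hcw t k).mpr ⟨hkj, (hcvt t k hkj).mp hk⟩
          rw [hz'] at this
          simp at this
        rw [hij, mem_cs] at hi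
        rw [hkj, mem_cs] at hk
        obtain ⟨e, h3, h4⟩ := hi
        obtain ⟨g, h5, h6⟩ := hk
        rw [hub] at h3
        rw [hvb] at h5
        rw [h4] at h6
        simp only [Option.some.injEq] at h3 h5 h6
        cases b <;> cases e <;> cases g <;> simp_all
      have hwF : w ∉ (F.erase u).erase v := by
        intro hc2
        obtain ⟨h3, h4⟩ := mem_erase.mp hc2
        obtain ⟨h5, h6⟩ := mem_erase.mp h4
        have h7 := (hcon w h6 h5 h3).1
        obtain ⟨i, hi⟩ := card_pos.mp h7
        rw [mem_cs] at hi
        obtain ⟨e, h8, h9⟩ := hi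
        rw [h8] at h9
        cases e <;> simp at h9
      have hT' : Til (insert w ((F.erase u).erase v)) := by
        constructor
        · intro x
          obtain ⟨t, ht, hx⟩ := hT.cov x
          by_cases htu : t = u
          · refine ⟨w, mem_insert_self _ _, ?_⟩
            intro i e he
            have hij : i ≠ j := by
              rintro rfl
              rw [hw0] at he
              simp at he
            rw [htu] at hx
            exact hx i e (by rw [← hwi i hij]; exact he)
          · by_cases htv : t = v
            · refine ⟨w, mem_insert_self _ _, ?_⟩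
              intro i e he
              have hij : i ≠ j := by
                rintro rfl
                rw [hw0] at he
                simp at he
              rw [htv] at hx
              exact hx i e (by rw [← hag i hij, ← hwi i hij]; exact he)
            · exact ⟨t, mem_insert_of_mem (mem_erase.mpr ⟨htv, mem_erase.mpr ⟨htu, ht⟩⟩), hx⟩
        · intro a ha c hc2 hac
          rcases mem_insert.mp ha with rfl | ha'
          · rcases mem_insert.mp hc2 with rfl | hc3
            · exact absurd rfl hac
            · obtain ⟨h3, h4⟩ := mem_erase.mp hc3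
              obtain ⟨h5, h6⟩ := mem_erase.mp h4
              exact hcon c h6 h5 h3
          · obtain ⟨h3, h4⟩ := mem_erase.mp ha'
            obtain ⟨h5, h6⟩ := mem_erase.mp h4
            rcases mem_insert.mp hc2 with rfl | hc3
            · rw [cs_comm]
              exact hcon a h6 h5 h3
            · obtain ⟨h7, h8⟩ := mem_erase.mp hc3
              obtain ⟨h9, h10⟩ := mem_erase.mp h8
              exact hT.conf a h6 c h10 hac
      have hcard : #(insert w ((F.erase u).erase v)) = m := by
        rw [card_insert_of_notMem hwF, card_erase_of_mem (mem_erase.mpr ⟨Ne.symm hne, hv⟩),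
          card_erase_of_mem hu]
        omega
      have hL := lam_split (ih _ hcard hT') w j (mem_insert_self _ _) hw0
      rw [erase_insert hwF] at hL
      have hFeq : insert (Function.update w j (some false))
          (insert (Function.update w j (some true)) ((F.erase u).erase v)) = F := by
        have h5 : insert u (insert v ((F.erase u).erase v)) = F := by
          rw [insert_erase (mem_erase.mpr ⟨Ne.symm hne, hv⟩), insert_erase hu]
        cases b
        · rw [hu']
          simp only [Bool.not_false] at hv'
          rw [hv']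
          exact h5
        · rw [hu']
          simp only [Bool.not_true] at hv'
          rw [hv', Finset.insert_comm]
          exact h5
      rw [hFeq] at hL
      exact hL
    · exact Lam.small F (by omega)

/-- The sets of indices all of whose patterns occur. -/
def Sh (F : Finset (Word d)) : Finset (Finset (Fin d)) :=
  univ.filter (fun S => ∀ x : Fin d → Bool, ∃ v ∈ F, ∀ i ∈ S, v i = some (x i))

lemma mem_Sh {F : Finset (Word d)} {S : Finset (Fin d)} :
    S ∈ Sh F ↔ ∀ x : Fin d → Bool, ∃ v ∈ F, ∀ i ∈ S, v i = some (x i) := by
  simp [Sh]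

lemma Sh_mono {F G : Finset (Word d)} (h : F ⊆ G) : Sh F ⊆ Sh G := by
  intro S hS
  rw [mem_Sh] at hS ⊢
  intro x
  obtain ⟨v, hv, h1⟩ := hS x
  exact ⟨v, h hv, h1⟩

/-- The counting step. -/
lemma card_le_Sh {F : Finset (Word d)} (h : Lam F) : #F ≤ #(Sh F) := by
  induction h with
  | small F h =>
    rcases F.eq_empty_or_nonempty with rfl | ⟨v, hv⟩
    · simp
    · have : 0 < #(Sh F) := card_pos.mpr ⟨∅, by
        rw [mem_Sh]
        intro x
        exact ⟨v, hv, by simp⟩⟩
      omega
  | node F i hi h0 h1 ih0 ih1 =>
    set F0 := F.filter (fun v => v i = some false) with hF0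
    set F1 := F.filter (fun v => v i = some true) with hF1
    have hcard : #F = #F0 + #F1 := by
      have : F = F0 ∪ F1 := by
        ext v
        simp only [hF0, hF1, mem_union, mem_filter]
        constructor
        · intro hv
          obtain ⟨b, hb⟩ := Option.ne_none_iff_exists'.mp (hi v hv)
          cases b
          · exact Or.inl ⟨hv, hb⟩
          · exact Or.inr ⟨hv, hb⟩
        · rintro (⟨h, _⟩ | ⟨h, _⟩) <;> exact h
      rw [← card_union_of_disjoint, ← this]
      rw [disjoint_left]
      intro v h2 h3
      rw [hF0, mem_filter] at h2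
      rw [hF1, mem_filter] at h3
      rw [h2.2] at h3
      simp at h3
    have hni0 : ∀ S ∈ Sh F0, i ∉ S := by
      intro S hS hiS
      rw [mem_Sh] at hS
      obtain ⟨v, hv, h2⟩ := hS (fun _ => true)
      have := h2 i hiS
      rw [hF0, mem_filter] at hv
      rw [hv.2] at this
      simp at this
    have hni1 : ∀ S ∈ Sh F1, i ∉ S := by
      intro S hS hiS
      rw [mem_Sh] at hS
      obtain ⟨v, hv, h2⟩ := hS (fun _ => false)
      have := h2 i hiS
      rw [hF1, mem_filter] at hv
      rw [hv.2] at this
      simp at this
    have hsub : (Sh F0 ∪ Sh F1) ∪ (Sh F0 ∩ Sh F1).image (fun S => insert i S) ⊆ Sh F := by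
      intro S hS
      rcases mem_union.mp hS with hS | hS
      · rcases mem_union.mp hS with hS | hS
        · exact Sh_mono (filter_subset _ _) hS
        · exact Sh_mono (filter_subset _ _) hS
      · obtain ⟨T, hT, rfl⟩ := mem_image.mp hS
        obtain ⟨hT0, hT1⟩ := mem_inter.mp hT
        rw [mem_Sh] at hT0 hT1 ⊢
        intro x
        rcases hxi : x i with _ | _
        · obtain ⟨v, hv, h2⟩ := hT0 x
          rw [hF0, mem_filter] at hv
          refine ⟨v, hv.1, ?_⟩
          intro k hk
          rcases mem_insert.mp hk with rfl | hk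
          · rw [hv.2, hxi]
          · exact h2 k hk
        · obtain ⟨v, hv, h2⟩ := hT1 x
          rw [hF1, mem_filter] at hv
          refine ⟨v, hv.1, ?_⟩
          intro k hk
          rcases mem_insert.mp hk with rfl | hk
          · rw [hv.2, hxi]
          · exact h2 k hk
    have hdis : Disjoint (Sh F0 ∪ Sh F1) ((Sh F0 ∩ Sh F1).image (fun S => insert i S)) := by
      rw [disjoint_left]
      intro S hS hS2
      obtain ⟨T, _, rfl⟩ := mem_image.mp hS2
      rcases mem_union.mp hS with hS | hS
      · exact hni0 _ hS (mem_insert_self _ _)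
      · exact hni1 _ hS (mem_insert_self _ _)
    have hinj : #((Sh F0 ∩ Sh F1).image (fun S => insert i S)) = #(Sh F0 ∩ Sh F1) := by
      apply card_image_of_injOn
      intro S hS T hT he
      have hS' := hni0 S (mem_inter.mp hS).1
      have hT' := hni0 T (mem_inter.mp hT).1
      simp only at he
      rw [← erase_insert hS', he, erase_insert hT']
    have := card_le_card hsub
    rw [card_union_of_disjoint hdis, hinj] at this
    have h5 := card_union_add_card_inter (Sh F0) (Sh F1)
    omega

lemma card_small (S : Finset (Fin d)) {F : Finset (Word d)}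
    (hc : ∀ u ∈ F, ∀ v ∈ F, u ≠ v → #(cs u v) ≤ 2) (hS : S ∈ Sh F) : #S ≤ 2 := by
  rw [mem_Sh] at hS
  obtain ⟨u, hu, h1⟩ := hS (fun _ => true)
  obtain ⟨v, hv, h2⟩ := hS (fun _ => false)
  have hsub : S ⊆ cs u v := by
    intro i hi
    rw [mem_cs]
    exact ⟨true, h1 i hi, h2 i hi⟩
  by_cases huv : u = v
  · rcases S.eq_empty_or_nonempty with rfl | ⟨i, hi⟩
    · simp
    · have e1 := h1 i hi
      rw [huv, h2 i hi] at e1
      simp at e1
  · exact (card_le_card hsub).trans (hc u hu v hv huv)

/-- The number of words of a two-neighborly tiling. -/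
theorem card_til {F : Finset (Word d)} (h : Til F) : #F ≤ 1 + d + d.choose 2 := by
  have h1 := card_le_Sh (til_lam _ F rfl h)
  have h2 : Sh F ⊆ (range 3).biUnion (fun k => powersetCard k univ) := by
    intro S hS
    rw [mem_biUnion]
    refine ⟨#S, mem_range.mpr ?_, mem_powersetCard.mpr ⟨subset_univ _, rfl⟩⟩
    have := card_small S (fun u hu v hv huv => (h.conf u hu v hv huv).2) hS
    omega
  have h3 := (card_le_card h2).trans card_biUnion_le
  simp only [card_powersetCard, card_univ, Fintype.card_fin, sum_range_succ, sum_range_zero,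
    Nat.choose_zero_right, Nat.choose_one_right] at h3
  omega

/-- **Order two coverings that tile the cube.** Let `H 0, …, H (d-1)` (colour classes `A i`, `B i`)
be a bipartite covering of order `2` of `K_n` such that for every set `X` of indices some vertex
lies in no `B i` with `i ∈ X` and in no `A i` with `i ∉ X`. Then the whole vertex set is total, and
`n ≤ 1 + d + d (d - 1) / 2`. -/
theorem result (d n : ℕ) (A B : Fin d → Finset (Fin n)) (hH : IsBipartiteCovering 2 d n A B)
    (htile : ∀ X : Finset (Fin d), ∃ v : Fin n, (∀ i ∈ X, v ∉ B i) ∧ ∀ i, i ∉ X → v ∉ A i) :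
    Total A B univ ∧ n ≤ 1 + d + d.choose 2 := by
  classical
  let wd : Fin n → Word d := fun v i =>
    if v ∈ A i then some true else if v ∈ B i then some false else none
  have hA : ∀ v i, wd v i = some true ↔ v ∈ A i := by
    intro v i
    by_cases h : v ∈ A i
    · simp [wd, h]
    · by_cases h2 : v ∈ B i <;> simp [wd, h, h2]
  have hB : ∀ v i, wd v i = some false ↔ v ∈ B i := by
    intro v i
    by_cases h : v ∈ A i
    · have : v ∉ B i := fun hb => (disjoint_left.mp (hH.disjoint i)) h hb
      simp [wd, h, this]
    · by_cases h2 : v ∈ B i <;> simp [wd, h, h2]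
  have hcs : ∀ u v, cs (wd u) (wd v) = sepSet A B u v := by
    intro u v
    ext i
    rw [mem_cs]
    simp only [sepSet, mem_filter, mem_univ, true_and]
    constructor
    · rintro ⟨b, h1, h2⟩
      cases b
      · right
        exact ⟨(hA v i).mp (by simpa using h2), (hB u i).mp h1⟩
      · left
        exact ⟨(hA u i).mp h1, (hB v i).mp (by simpa using h2)⟩
    · rintro (⟨h1, h2⟩ | ⟨h1, h2⟩)
      · exact ⟨true, (hA u i).mpr h1, by simpa using (hB v i).mpr h2⟩
      · exact ⟨false, (hB u i).mpr h2, by simpa using (hA v i).mpr h1⟩
  have hinj : Function.Injective wd := by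
    intro u v he
    by_contra hne
    have h1 := (hH.mult u v hne).1
    rw [← hcs, he] at h1
    obtain ⟨i, hi⟩ := card_pos.mp h1
    rw [mem_cs] at hi
    obtain ⟨b, h2, h3⟩ := hi
    rw [h2] at h3
    cases b <;> simp at h3
  have hT : Til (univ.image wd) := by
    constructor
    · intro x
      obtain ⟨v, h1, h2⟩ := htile (univ.filter (fun i => x i = true))
      refine ⟨wd v, mem_image_of_mem _ (mem_univ v), ?_⟩
      intro i b hb
      cases b
      · by_contra hx
        have hx' : x i = true := by simpa using hx
        exact h1 i (by simp [hx']) ((hB v i).mp hb)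
      · by_contra hx
        exact h2 i (by simp [hx]) ((hA v i).mp hb)
    · intro a ha c hc hac
      obtain ⟨u, _, rfl⟩ := mem_image.mp ha
      obtain ⟨v, _, rfl⟩ := mem_image.mp hc
      rw [hcs]
      exact hH.mult u v (fun h => hac (by rw [h]))
  constructor
  · have main : ∀ F : Finset (Word d), Lam F → ∀ W : Finset (Fin n), W.image wd = F →
        Total A B W := by
      intro F hF
      induction hF with
      | small F h =>
        intro W hW
        apply Total.small
        rw [← card_image_of_injective W hinj, hW]
        exact h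
      | node F i hi _ _ ih0 ih1 =>
        intro W hW
        refine Total.node W i ?_ ?_ ?_
        · intro v hv
          have h1 : wd v ∈ F := by
            rw [← hW]
            exact mem_image_of_mem _ hv
          obtain ⟨b, hb⟩ := Option.ne_none_iff_exists'.mp (hi _ h1)
          rw [mem_union]
          cases b
          · exact Or.inr ((hB v i).mp hb)
          · exact Or.inl ((hA v i).mp hb)
        · apply ih1
          ext t
          simp only [mem_image, mem_inter, mem_filter]
          constructor
          · rintro ⟨v, ⟨hv, hvA⟩, rfl⟩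
            refine ⟨?_, (hA v i).mpr hvA⟩
            rw [← hW]
            exact mem_image_of_mem _ hv
          · rintro ⟨ht, hti⟩
            rw [← hW] at ht
            obtain ⟨v, hv, rfl⟩ := mem_image.mp ht
            exact ⟨v, ⟨hv, (hA v i).mp hti⟩, rfl⟩
        · apply ih0
          ext t
          simp only [mem_image, mem_inter, mem_filter]
          constructor
          · rintro ⟨v, ⟨hv, hvB⟩, rfl⟩
            refine ⟨?_, (hB v i).mpr hvB⟩
            rw [← hW]
            exact mem_image_of_mem _ hv
          · rintro ⟨ht, hti⟩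
            rw [← hW] at ht
            obtain ⟨v, hv, rfl⟩ := mem_image.mp ht
            exact ⟨v, ⟨hv, (hB v i).mp hti⟩, rfl⟩
    exact main _ (til_lam _ _ rfl hT) univ rfl
  · have := card_til hT
    rwa [card_image_of_injective _ hinj, card_univ, Fintype.card_fin] at this

end Pool.Agent.Results.MP_602efc_co.Tilings
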